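import Pool.Agent.Helper94.PQ.StmtsK
import Pool.Agent.Helper39.PQ.DENS

/-!
# Row DENSK: a vector fixed by the wild inertia group and by a generator of the tame inertia group is
fixed by the inertia group (any topological field of coefficients)
-/

set_option autoImplicit false

open NumberField
open scoped Classical

namespace PQ

open BKA

namespace A39

theorem continuous_vecK {F : Type} [Field F] {K : Type} [Field K] [TopologicalSpace K]
    [IsTopologicalRing K] {n : ℕ}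
    (ρ : Gal F →* Matrix.GeneralLinearGroup (Fin n) K) (hρ : Continuous ρ)
    (x : Fin n → K) : Continuous (fun σ : Gal F => vec ρ σ x) := by
  have h1 : Continuous (fun σ : Gal F =>
      ((ρ σ : Matrix.GeneralLinearGroup (Fin n) K) : Matrix (Fin n) (Fin n) K)) :=
    Units.continuous_val.comp hρ
  exact h1.matrix_mulVec continuous_const

end A39

theorem st_DENSK (hW : ST_WSUR) (hG : ST_GRP) : ST_DENSK := by
  intro F _ _ v 𝔓 hv τ hτ K _ _ _ _ n ρ hρ x hx hxτ σ hσ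
  obtain ⟨g1, g2, g3, g4, g5, g6, g7, g8⟩ := hG F v 𝔓 hv
  by_contra hne
  have hopen : IsOpen {g : Gal F | vec ρ g x ≠ x} :=
    isOpen_ne_fun (A39.continuous_vecK ρ hρ x) continuous_const
  have hcont : Continuous (fun h : Gal F => σ * h⁻¹) := continuous_const.mul continuous_inv
  have hV : (fun h : Gal F => σ * h⁻¹) ⁻¹' {g : Gal F | vec ρ g x ≠ x} ∈ nhds (1 : Gal F) := by
    apply (hopen.preimage hcont).mem_nhds
    show vec ρ (σ * (1 : Gal F)⁻¹) x ≠ x
    rw [inv_one, mul_one]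
    exact hne
  rw [krullTopology_mem_nhds_one_iff_of_normal] at hV
  obtain ⟨E, hE1, hE2, hE⟩ := hV
  obtain ⟨j, hj⟩ := hτ.2 E hE1 hE2 σ hσ
  have hc := A39.congr_pow 𝔓 g1 τ hτ.1 σ hσ j
  obtain ⟨g, hg, hon⟩ := g7 E hE2 _ hc
  have hram := (g8 E 1 _ g hon).1 hj
  obtain ⟨σ', hw, hon'⟩ := hW F v 𝔓 hv E hE1 hE2 g hram
  have hfix : σ'⁻¹ * (τ ^ j * σ) ∈ E.fixingSubgroup := by
    rw [IntermediateField.mem_fixingSubgroup_iff]
    intro y hy
    have e1 := hon ⟨y, hy⟩
    have e2 := hon' ⟨y, hy⟩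
    rw [AlgEquiv.mul_apply]
    have e3 : (τ ^ j * σ) y = σ' y := by
      rw [show (τ ^ j * σ) y = (τ ^ j * σ) ((⟨y, hy⟩ : E) : AlgebraicClosure F) from rfl, e1, ← e2]
    rw [e3]
    exact AlgEquiv.symm_apply_apply σ' y
  have hmem := hE hfix
  apply hmem
  show vec ρ (σ * (σ'⁻¹ * (τ ^ j * σ))⁻¹) x = x
  have e : σ * (σ'⁻¹ * (τ ^ j * σ))⁻¹ = (τ ^ j)⁻¹ * σ' := by group
  rw [e, A39.vec_mul, hx σ' hw]
  exact A39.vec_inv_of ρ _ x (A39.vec_pow_of ρ τ x hxτ j)

end PQ
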