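import Pool.Agent.Helper94.PQ.Stmts
import Pool.Agent.Helper39.PQ.DENS

/-!
# Row ODDV: the parity of the exponent of the conductor at the odd places
-/

set_option autoImplicit false

open NumberField
open scoped Classical

namespace PQ

open BKA Pool.Agent.Helper13.Swan

namespace A39

theorem exists_residue_char {F : Type} [Field F] [NumberField F] (v : Pl F) :
    ∃ p : ℕ, p.Prime ∧ (p : 𝓞 F) ∈ v.asIdeal := by
  have hex : ∃ N : ℕ, 0 < N ∧ (N : 𝓞 F) ∈ v.asIdeal := by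
    refine ⟨Ideal.absNorm v.asIdeal, ?_, Ideal.absNorm_mem _⟩
    rw [Nat.pos_iff_ne_zero]
    intro h
    exact v.ne_bot (Ideal.absNorm_eq_zero_iff.1 h)
  have h1 := Nat.find_spec hex
  set p := Nat.find hex with hp
  refine ⟨p, ?_, h1.2⟩
  have hp1 : p ≠ 1 := by
    intro h
    apply v.isPrime.ne_top
    rw [Ideal.eq_top_iff_one]
    have h2 := h1.2
    rw [h, Nat.cast_one] at h2
    exact h2
  rw [Nat.prime_def]
  refine ⟨by omega, ?_⟩
  intro m hm
  obtain ⟨b, hb⟩ := hm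
  have hmem : (m : 𝓞 F) * (b : 𝓞 F) ∈ v.asIdeal := by
    rw [← Nat.cast_mul, ← hb]
    exact h1.2
  have hm0 : 0 < m := by
    rw [Nat.pos_iff_ne_zero]
    rintro rfl
    rw [zero_mul] at hb
    omega
  have hb0 : 0 < b := by
    rw [Nat.pos_iff_ne_zero]
    rintro rfl
    rw [mul_zero] at hb
    omega
  rcases v.isPrime.mem_or_mem hmem with h | h
  · right
    have h3 : p ≤ m := Nat.find_min' hex ⟨hm0, h⟩
    have h4 : m ≤ p := by
      rw [hb]
      exact Nat.le_mul_of_pos_right m hb0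
    omega
  · left
    have h3 : p ≤ b := Nat.find_min' hex ⟨hb0, h⟩
    have h5 : m * b ≤ 1 * b := by omega
    have h6 : m ≤ 1 := Nat.le_of_mul_le_mul_right h5 hb0
    omega

theorem on_mul {F : Type} [Field F] (L : IntermediateField F (AlgebraicClosure F)) (σ τ : Gal F)
    (g h : L ≃ₐ[F] L) (hg : On L σ g) (hh : On L τ h) : On L (σ * τ) (g * h) := by
  intro x
  rw [AlgEquiv.mul_apply, hh x, hg (h x)]
  rfl

theorem on_one {F : Type} [Field F] (L : IntermediateField F (AlgebraicClosure F)) :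
    On L (1 : Gal F) 1 := by
  intro x
  rfl

theorem on_pow {F : Type} [Field F] (L : IntermediateField F (AlgebraicClosure F)) (σ : Gal F)
    (g : L ≃ₐ[F] L) (hg : On L σ g) (j : ℕ) : On L (σ ^ j) (g ^ j) := by
  induction j with
  | zero => rw [pow_zero, pow_zero]; exact on_one L
  | succ j ih => rw [pow_succ, pow_succ]; exact on_mul L _ _ _ _ ih hg

theorem on_inv {F : Type} [Field F] (L : IntermediateField F (AlgebraicClosure F)) (σ : Gal F)
    (g : L ≃ₐ[F] L) (hg : On L σ g) : On L σ⁻¹ g⁻¹ := by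
  intro x
  have h1 := hg (g⁻¹ x)
  have h2 : g (g⁻¹ x) = x := AlgEquiv.apply_symm_apply g x
  rw [h2] at h1
  rw [← h1]
  exact AlgEquiv.symm_apply_apply σ _

section lin

variable {k : Type} [Field k] {n : ℕ}

/-- the linear maps of a matrix representation -/
noncomputable def toE {Γ : Type} [Group Γ] (ρ : Γ →* Matrix.GeneralLinearGroup (Fin n) k) :
    Γ →* ((Fin n → k) →ₗ[k] (Fin n → k)) :=
  ((Matrix.toLinAlgEquiv' : Matrix (Fin n) (Fin n) k ≃ₐ[k] _).toAlgHom.toRingHom.toMonoidHom).comp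
    ((Units.coeHom _).comp ρ)

theorem toE_apply {Γ : Type} [Group Γ] (ρ : Γ →* Matrix.GeneralLinearGroup (Fin n) k) (g : Γ)
    (x : Fin n → k) : toE ρ g x = vec ρ g x := rfl

theorem det_toE {Γ : Type} [Group Γ] (ρ : Γ →* Matrix.GeneralLinearGroup (Fin n) k) (g : Γ) :
    LinearMap.det (toE ρ g) =
      ((ρ g : Matrix.GeneralLinearGroup (Fin n) k) : Matrix (Fin n) (Fin n) k).det :=
  LinearMap.det_toLin' _

/-- the bilinear form of a matrix -/
noncomputable def bil (B : Matrix (Fin n) (Fin n) k) :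
    (Fin n → k) →ₗ[k] (Fin n → k) →ₗ[k] k :=
  Matrix.toLinearMap₂' k B

theorem bil_apply (B : Matrix (Fin n) (Fin n) k) (x y : Fin n → k) :
    bil B x y = x ⬝ᵥ (B.mulVec y) :=
  Matrix.toLinearMap₂'_apply' B x y

theorem bil_symm (B : Matrix (Fin n) (Fin n) k) (hs : B.transpose = B) (hd : B.det ≠ 0) :
    Symm (bil B) := by
  constructor
  · intro x y
    rw [bil_apply, bil_apply, Matrix.dotProduct_mulVec, dotProduct_comm, ← Matrix.mulVec_transpose,
      hs]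
  · intro y hy
    have h1 : B.mulVec y = 0 := by
      funext i
      have h2 := hy (Pi.single i 1)
      rw [bil_apply, single_one_dotProduct] at h2
      exact h2
    exact Matrix.eq_zero_of_mulVec_eq_zero hd h1

theorem bil_isom (B A : Matrix (Fin n) (Fin n) k) (h : A.transpose * B * A = B)
    (x y : Fin n → k) : bil B (A.mulVec x) (A.mulVec y) = bil B x y := by
  rw [bil_apply, bil_apply]
  have h1 : x ⬝ᵥ (B.mulVec y) = x ⬝ᵥ ((A.transpose * B * A).mulVec y) := by rw [h]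
  rw [h1, ← Matrix.mulVec_mulVec, ← Matrix.mulVec_mulVec, Matrix.dotProduct_mulVec x,
    Matrix.vecMul_transpose]

end lin

theorem isom_of_congr (hCYCI : ST_CYCI) {F : Type} [Field F] [NumberField F] {n : ℕ} {m : ℤ}
    (R : Realisations F n m) (v : Pl F) (𝔓 : Ideal (Zb F)) (hO : Over v 𝔓) (ℓ : ℕ)
    [Fact ℓ.Prime] (hℓ : (ℓ : 𝓞 F) ∉ v.asIdeal) (σ : Gal F) (hσ : Congr 𝔓 1 σ)
    (x y : Fin n → ℚ_[ℓ]) :
    bil (R.B ℓ) (vec (R.ρ ℓ) σ x) (vec (R.ρ ℓ) σ y) = bil (R.B ℓ) x y := by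
  apply bil_isom
  have h1 := R.inv ℓ σ
  rw [hCYCI F v 𝔓 hO ℓ hℓ σ hσ, one_zpow, Units.val_one, one_smul] at h1
  exact h1

theorem parity_of_pow {k : Type} [Field k] [CharZero k] (r : ℕ) :
    ((-1 : k) ^ r = 1 → Even r) ∧ ((-1 : k) ^ r = -1 → ¬ Even r) := by
  have h1 : (1 : k) ≠ -1 := by
    intro h
    have h2 : (2 : k) = 0 := by
      have : (1 : k) + 1 = 0 := by
        nth_rewrite 2 [h]
        ring
      rw [← this]
      norm_num
    exact two_ne_zero h2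
  constructor
  · intro h
    by_contra hne
    rw [Nat.not_even_iff_odd] at hne
    rw [hne.neg_one_pow] at h
    exact h1 h.symm
  · intro h he
    rw [he.neg_one_pow] at h
    exact h1 h

end A39

theorem st_ODDV (hFIN : ST_FIN) (hSUR : ST_SUR) (hGRP : ST_GRP) (hTOP : ST_TOP)
    (hDENS : ST_DENS) (hREP : ST_REP) (hFILT : ST_FILT) (hODD : ST_ODD) (hCYCI : ST_CYCI)
    (hZP : ST_ZP) (hKUM : ST_KUM) : ST_ODDV := by
  intro F _ _ n m R v a h2 hcond
  obtain ⟨p, hp, hpv⟩ := A39.exists_residue_char v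
  have hp2 : p ≠ 2 := by
    rintro rfl
    exact h2 (by exact_mod_cast hpv)
  obtain ⟨ℓ, hℓF, ζ, hℓp, hζ⟩ := hZP p hp
  have hℓv : (ℓ : 𝓞 F) ∉ v.asIdeal := by
    intro h
    have hcop : IsCoprime (ℓ : ℤ) (p : ℤ) :=
      Nat.isCoprime_iff_coprime.2 ((Nat.coprime_primes hℓF.out hp).2 hℓp)
    obtain ⟨s, t, hst⟩ := hcop
    apply v.isPrime.ne_top
    rw [Ideal.eq_top_iff_one]
    have h3 : (1 : 𝓞 F) = (s : 𝓞 F) * (ℓ : 𝓞 F) + (t : 𝓞 F) * (p : 𝓞 F) := by
      exact_mod_cast congrArg (Int.cast : ℤ → 𝓞 F) hst.symm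
    rw [h3]
    exact Ideal.add_mem _ (Ideal.mul_mem_left _ _ h) (Ideal.mul_mem_left _ _ hpv)
  obtain ⟨𝔓, L, hO, hfd, hn, htriv, hform⟩ := hcond ℓ hℓv
  obtain ⟨g1, g2, g3, g4, g5, g6, g7, g8⟩ := hGRP F v 𝔓 hO
  obtain ⟨τ, hτ, -⟩ := hTOP F v 𝔓 hO
  obtain ⟨M⟩ := hFIN F v 𝔓 hO L hfd hn
  obtain ⟨t₀, ht₀, hont⟩ := g7 L hn τ hτ.1
  set t : Inr L 𝔓 := ⟨t₀, ht₀⟩ with ht
  have hfin : Finite (L ≃ₐ[F] L) := by
    have := hfd
    infer_instance
  have hfin' : Finite (Inr L 𝔓) := inferInstance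
  let _ := Fintype.ofFinite (Inr L 𝔓)
  have hgen : ∀ g : Inr L 𝔓, ∃ j : ℕ, t ^ j * g ∈ Rk M.base 1 := by
    intro g
    obtain ⟨σ, hσ, hon⟩ := hSUR F v 𝔓 hO L hfd hn g g.2
    obtain ⟨j, hj⟩ := hτ.2 L hfd hn σ hσ
    refine ⟨j, ?_⟩
    have hon2 : On L (τ ^ j * σ) ((t ^ j * g : Inr L 𝔓) : L ≃ₐ[F] L) := by
      rw [Subgroup.coe_mul, Subgroup.coe_pow]
      exact A39.on_mul L _ _ _ _ (A39.on_pow L _ _ hont j) hon
    exact (M.ram 1 (t ^ j * g)).1 ((g8 L 1 _ _ hon2).1 hj)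
  have hwp : M.w ((p : ℕ) : L) < 1 := by
    have h3 := M.val (p : F)
    rw [map_natCast] at h3
    rw [h3]
    have h4 : v.valuation F (p : F) < 1 := by
      have h5 := (IsDedekindDomain.HeightOneSpectrum.valuation_lt_one_iff_mem (K := F) v
        (p : 𝓞 F)).2 hpv
      have e5 : ((p : 𝓞 F) : F) = (p : F) := map_natCast (algebraMap (𝓞 F) F) p
      rw [← e5]
      exact h5
    exact pow_lt_one₀ zero_le h4 Nat.card_pos.ne'
  obtain ⟨e, hF⟩ := hFILT L (Inr L 𝔓) M.w M.π M.base p hp hwp t hgen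
  obtain ⟨hcard, r, hr1, hr2, hr3, hr4⟩ := hREP F v 𝔓 hO L hfd hn M ℚ_[ℓ] n (R.ρ ℓ) htriv
  set ρ := R.ρ ℓ with hρ
  have hrρ : ∀ (σ : Gal F) (g : Rk M.base 1), Wild 𝔓 σ →
      On L σ ((g : Inr L 𝔓) : L ≃ₐ[F] L) → ∀ x, vec r g x = vec ρ σ x := by
    intro σ g hw hon x
    unfold vec
    rw [hr1 σ g hw hon]
  have hiso : ∀ σ : Gal F, Congr 𝔓 1 σ → ∀ x y : Fin n → ℚ_[ℓ],
      A39.bil (R.B ℓ) (vec ρ σ x) (vec ρ σ y) = A39.bil (R.B ℓ) x y :=
    fun σ hσ x y => A39.isom_of_congr hCYCI R v 𝔓 hO ℓ hℓv σ hσ x y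
  have hsymm := A39.bil_symm (R.B ℓ) (R.symm ℓ) (R.nondeg ℓ)
  set T : (Fin n → ℚ_[ℓ]) →ₗ[ℚ_[ℓ]] (Fin n → ℚ_[ℓ]) := A39.toE ρ τ with hT
  have hTapp : ∀ x, T x = vec ρ τ x := fun x => rfl
  have hTiso : ∀ x y, A39.bil (R.B ℓ) (T x) (T y) = A39.bil (R.B ℓ) x y := hiso τ hτ.1
  have hfix0 : fixd ρ {σ | Congr 𝔓 1 σ} =
      (fixS (A39.toE r) ⊤ ⊓ LinearMap.ker (T - 1) : Submodule ℚ_[ℓ] (Fin n → ℚ_[ℓ])) := by
    ext x
    constructor
    · intro hx
      refine ⟨?_, ?_⟩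
      · intro g _
        obtain ⟨σ, hw, hon⟩ := hr2 g
        rw [A39.toE_apply, hrρ σ g hw hon]
        exact hx σ (g3 σ hw)
      · rw [SetLike.mem_coe, LinearMap.mem_ker, LinearMap.sub_apply, Module.End.one_apply,
          sub_eq_zero]
        exact hx τ hτ.1
    · rintro ⟨hx1, hx2⟩ σ hσ
      rw [SetLike.mem_coe, LinearMap.mem_ker, LinearMap.sub_apply, Module.End.one_apply,
        sub_eq_zero] at hx2
      refine hDENS F v 𝔓 hO τ hτ ℓ n ρ (R.cont ℓ) x ?_ hx2 σ hσ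
      intro σ' hw
      obtain ⟨g, hon⟩ := hr3 σ' hw
      rw [← hrρ σ' g hw hon]
      exact hx1 g (Subgroup.mem_top _)
  have hfixi : ∀ i : ℕ, fixd ρ {σ | Wild 𝔓 σ ∧ Ram L 𝔓 (i + 1) σ} =
      fixS (A39.toE r) (Rk M.base (i + 1)) := by
    intro i
    ext x
    rw [hr4 i x]
    rfl
  have hfr : Module.finrank ℚ_[ℓ] (Fin n → ℚ_[ℓ]) = n := by simp
  have hmain : Even (a + Module.finrank ℚ_[ℓ] (LinearMap.range (T - 1))) := by
    refine hODD (Inr L 𝔓) p e t (Rk M.base) hp hp2 hF ℚ_[ℓ] (Fin n → ℚ_[ℓ]) ζ hζ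
      (A39.bil (R.B ℓ)) hsymm (A39.toE r) T ?_ hTiso ?_ a ?_
    · intro g x y
      obtain ⟨σ, hw, hon⟩ := hr2 g
      rw [A39.toE_apply, A39.toE_apply, hrρ σ g hw hon, hrρ σ g hw hon]
      exact hiso σ (g3 σ hw) x y
    · intro g g' hg' x
      obtain ⟨σ, hw, hon⟩ := hr2 g
      have hw' := g6 σ τ hw hτ.1
      have hon' : On L (τ * σ * τ⁻¹) ((g' : Inr L 𝔓) : L ≃ₐ[F] L) := by
        rw [hg', Subgroup.coe_mul, Subgroup.coe_mul, Subgroup.coe_inv]
        exact A39.on_mul L _ _ _ _ (A39.on_mul L _ _ _ _ hont hon) (A39.on_inv L _ _ hont)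
      show vec ρ τ (vec r g x) = vec r g' (vec ρ τ x)
      rw [hrρ σ g hw hon, hrρ _ g' hw' hon', ← A39.vec_mul, ← A39.vec_mul]
      congr 1
      group
    · have hc0 : ramCard L 𝔓 0 = Nat.card (Inr L 𝔓) := by
        rw [hcard 0, hF.top, Subgroup.card_top]
      rw [hc0] at hform
      rw [hform, hfr, ← hfix0]
      congr 1
      apply finsum_congr
      intro i
      rw [hcard (i + 1), ← hfixi i]
      rfl
  have hdet : LinearMap.det T = (-1) ^ Module.finrank ℚ_[ℓ] (LinearMap.range (T - 1)) :=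
    CP18.det_isometry (A39.bil (R.B ℓ)) hsymm.nondeg hsymm.symm T hTiso
  rw [hT, A39.det_toE, ← hT] at hdet
  obtain ⟨y, hy⟩ := IsAlgClosed.exists_pow_nat_eq (algebraMap F (AlgebraicClosure F) R.δ)
    (n := 2) (by norm_num)
  have hK := hKUM F v 𝔓 hO h2 τ hτ R.δ y R.δ_ne hy
  have hcyc := hCYCI F v 𝔓 hO ℓ hℓv τ hτ.1
  obtain ⟨q1, q2⟩ := A39.parity_of_pow (k := ℚ_[ℓ])
    (Module.finrank ℚ_[ℓ] (LinearMap.range (T - 1)))
  rcases R.det ℓ τ y hy with ⟨h3, h4⟩ | ⟨h3, h4⟩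
  · rw [hcyc, one_zpow, Units.val_one] at h4
    have h5 : Even (od v R.δ) := hK.1 h3
    have h6 := q1 (hdet.symm.trans h4)
    have h7 : Even a := (Nat.even_add.1 hmain).2 h6
    exact Even.add (by exact_mod_cast h7) h5
  · rw [hcyc, one_zpow, Units.val_one] at h4
    have hy0 : y ≠ 0 := by
      rintro rfl
      rw [zero_pow two_ne_zero] at hy
      have := (map_eq_zero (algebraMap F (AlgebraicClosure F))).1 hy.symm
      exact R.δ_ne this
    have h5 : ¬ Even (od v R.δ) := by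
      intro he
      have h8 := hK.2 he
      rw [h3] at h8
      have h9 : (2 : AlgebraicClosure F) * y = 0 := by
        have : y + y = 0 := by
          nth_rewrite 1 [← h8]
          ring
        rw [two_mul]
        exact this
      rcases mul_eq_zero.1 h9 with h10 | h10
      · exact two_ne_zero h10
      · exact hy0 h10
    have h6 := q2 (hdet.symm.trans h4)
    have h7 : ¬ Even a := fun h => h6 ((Nat.even_add.1 hmain).1 h)
    rw [Int.even_add]
    constructor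
    · intro h
      exact absurd (by exact_mod_cast h) h7
    · intro h
      exact absurd h h5

end PQ
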